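import Pool.Agent.Helper48.WeissJ.Goals
import Pool.Agent.Helper42.Weiss.Repair

/-!
MP_6b0aee_an (Weiss), joint version: basic facts on spanning numbers (`spb`) and the repair lemma
for the joint rates (`jrep`).
-/

open Set Filter Topology
open Pool.Agent.Helper42.Weiss
open Pool.Agent.Helper48.WeissJ

namespace Pool.Agent.Helper18.WeissJ

universe u

theorem dynDist_le_iff {X : Type*} (D : X → X → ℝ) (F : X → X) {ε : ℝ} (hε : 0 ≤ ε) (T : ℕ)
    (x y : X) : dynDist D F T x y ≤ ε ↔ ∀ t < T, D (F^[t] x) (F^[t] y) ≤ ε := by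
  rw [← not_lt, lt_dynDist_iff D F hε T x y]
  push Not
  rfl

theorem spanNum_le {X : Type*} (D : X → X → ℝ) (F : X → X) {ε : ℝ} (hε : 0 < ε) (T : ℕ)
    (S : Finset X) (hS : ∀ x, ∃ y ∈ S, ∀ t < T, D (F^[t] x) (F^[t] y) ≤ ε) :
    spanNum D F ε T ≤ S.card := by
  refine Nat.sInf_le ⟨S, rfl, ?_⟩
  intro x
  obtain ⟨y, hy, h⟩ := hS x
  exact ⟨y, hy, (dynDist_le_iff D F hε.le T x y).2 h⟩

/-- A separated set of maximal cardinality is spanning. -/
theorem exists_span {X : Type*} [TopologicalSpace X] [CompactSpace X] (D : X → X → ℝ)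
    (hD : IsEquivMetric D) (F : X → X) {ε : ℝ} (hε : 0 < ε) (T : ℕ) :
    ∃ S : Finset X, S.card = sepNum D F ε T ∧
      ∀ x, ∃ y ∈ S, ∀ t < T, D (F^[t] x) (F^[t] y) ≤ ε := by
  classical
  obtain ⟨E, hE, hs⟩ := exists_sepNum hD F hε T
  refine ⟨E, hE, ?_⟩
  intro x
  by_contra hcon
  push Not at hcon
  have hx : x ∉ E := by
    intro hx
    obtain ⟨t, -, ht⟩ := hcon x hx
    rw [hD.self] at ht
    exact absurd ht (not_lt.2 hε.le)
  have hsep : IsSep D F ε T (insert x E) := by
    intro a ha b hb hab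
    rw [Finset.mem_insert] at ha hb
    rcases ha with rfl | ha
    · rcases hb with rfl | hb
      · exact absurd rfl hab
      · exact hcon b hb
    · rcases hb with rfl | hb
      · obtain ⟨t, ht, h⟩ := hcon a ha
        refine ⟨t, ht, ?_⟩
        rw [hD.symm]
        exact h
      · exact hs a ha b hb hab
  have h1 := le_sepNum hD hε hsep
  rw [Finset.card_insert_of_notMem hx, hE] at h1
  omega

theorem spb : SPB.{u} := by
  intro X _ _ D hD F ε hε T
  obtain ⟨S, hS, hspan⟩ := exists_span D hD F hε T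
  have hne : {n : ℕ | ∃ S : Finset X, S.card = n ∧
      ∀ x, ∃ y ∈ S, dynDist D F T x y ≤ ε}.Nonempty := by
    refine ⟨S.card, S, rfl, ?_⟩
    intro x
    obtain ⟨y, hy, h⟩ := hspan x
    exact ⟨y, hy, (dynDist_le_iff D F hε.le T x y).2 h⟩
  obtain ⟨S', hS', hspan'⟩ := Nat.sInf_mem hne
  refine ⟨?_, ?_, fun S hS => spanNum_le D F hε T S hS, ?_⟩
  · rw [← hS]
    exact spanNum_le D F hε T S hspan
  · rintro ⟨x⟩
    obtain ⟨y, hy, -⟩ := hspan' x
    have h1 : 0 < S'.card := Finset.card_pos.2 ⟨y, hy⟩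
    have h2 : S'.card = spanNum D F ε T := hS'
    omega
  · refine ⟨S', hS', ?_⟩
    intro x
    obtain ⟨y, hy, h⟩ := hspan' x
    exact ⟨y, hy, (dynDist_le_iff D F hε.le T x y).1 h⟩

theorem jrep : JREP.{u} := by
  intro X _ F D hD hc
  obtain ⟨φ, hmono, hlip, hlow, hup, hflat⟩ := exists_staircase hc (fun b hb => hb.1)
  have hnn : ∀ s, 0 ≤ s → 0 ≤ φ s := fun s hs => le_trans (by positivity) (hlow s hs)
  have hD0 : ∀ x y, 0 ≤ D x y := hD.nonneg
  have hφ0 : φ 0 = 0 := le_antisymm (hup 0 le_rfl) (by simpa using hlow 0 le_rfl)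
  have hsub : ∀ a b, 0 ≤ a → 0 ≤ b → Real.sqrt (φ (a + b)) ≤ Real.sqrt (φ a) + Real.sqrt (φ b) := by
    have key : ∀ a b, 0 ≤ b → b ≤ a → Real.sqrt (φ (a + b)) ≤ Real.sqrt (φ a) + Real.sqrt (φ b) := by
      intro a b hb hba
      have ha := hb.trans hba
      rw [Real.sqrt_le_left (by positivity)]
      have h1 := Real.sq_sqrt (hnn a ha)
      have h2 := Real.sq_sqrt (hnn b hb)
      have h3 : 3 / 4 * b ≤ Real.sqrt (φ a) * Real.sqrt (φ b) := by
        rw [← Real.sqrt_mul (hnn a ha)]
        refine Real.le_sqrt_of_sq_le ?_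
        have h4 : 3 / 4 * b ≤ φ a := by linarith [hlow a ha]
        have h5 : 3 / 4 * b ≤ φ b := hlow b hb
        nlinarith [hnn a ha]
      have h6 := hlip a (a + b) ha (by linarith)
      have h7 := hnn b hb
      nlinarith
    intro a b ha hb
    rcases le_total b a with h | h
    · exact key a b hb h
    · have := key b a ha h
      rw [add_comm b a] at this
      linarith
  refine ⟨fun x y => Real.sqrt (φ (D x y)), ?_, ?_⟩
  · refine ⟨fun x => by simp [hD.self, hφ0], ?_, fun x y => by simp only [hD.symm x y], ?_, ?_⟩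
    · intro x y h
      rw [Real.sqrt_eq_zero (hnn _ (hD0 x y))] at h
      have := hlow _ (hD0 x y)
      rw [h] at this
      exact hD.eq_of x y (le_antisymm (by linarith) (hD0 x y))
    · intro x y z
      refine le_trans (Real.sqrt_le_sqrt ?_) (hsub _ _ (hD0 x y) (hD0 y z))
      exact hmono _ _ (hD0 x z) (hD.triangle x y z)
    · intro x
      refine (hD.basis x).to_hasBasis ?_ ?_
      · intro r hr
        refine ⟨Real.sqrt (3 / 4 * r), Real.sqrt_pos.2 (by positivity), ?_⟩
        intro y hy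
        simp only [mem_setOf_eq] at hy ⊢
        rw [Real.sqrt_lt_sqrt_iff (hnn _ (hD0 x y))] at hy
        have := hlow _ (hD0 x y)
        linarith
      · intro r hr
        refine ⟨r ^ 2, by positivity, ?_⟩
        intro y hy
        simp only [mem_setOf_eq] at hy ⊢
        rw [Real.sqrt_lt' hr]
        exact lt_of_le_of_lt (hup _ (hD0 x y)) hy
  · intro ε hε
    set S : Set ℝ := {s | 0 ≤ s ∧ φ s ≤ ε ^ 2} with hS
    have hSb : BddAbove S := ⟨4 / 3 * ε ^ 2, by
      rintro s ⟨hs, hs'⟩
      have := hlow s hs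
      linarith⟩
    have hmem : ε ^ 2 ∈ S := ⟨by positivity, hup _ (by positivity)⟩
    set σ := sSup S with hσ
    have hσpos : 0 < σ := lt_of_lt_of_le (by positivity) (le_csSup hSb hmem)
    have hσle : φ σ ≤ ε ^ 2 := by
      refine le_of_forall_pos_le_add (fun δ hδ => ?_)
      obtain ⟨s, hs, hs'⟩ := exists_lt_of_lt_csSup ⟨_, hmem⟩ (show σ - δ < σ by linarith)
      have h1 := hlip s σ hs.1 (le_csSup hSb hs)
      have h2 := hs.2
      linarith
    have hiff : ∀ s, 0 ≤ s → (ε < Real.sqrt (φ s) ↔ σ < s) := by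
      intro s hs
      rw [Real.lt_sqrt hε.le]
      constructor
      · intro h
        by_contra hcon
        rw [not_lt] at hcon
        have := hmono s σ hs hcon
        linarith
      · intro h
        by_contra hcon
        rw [not_lt] at hcon
        exact absurd (le_csSup hSb (show s ∈ S from ⟨hs, hcon⟩)) (not_le.2 h)
    have hgood : HasJointRate D F σ := by
      by_contra hbad
      obtain ⟨s', hs', he⟩ := hflat σ ⟨hσpos, hbad⟩
      have : s' ∈ S := ⟨by linarith, by rw [he]; exact hσle⟩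
      exact absurd (le_csSup hSb this) (not_le.2 hs')
    obtain ⟨L, hL, hL'⟩ := hgood
    refine ⟨L, ?_, ?_⟩
    · have heq : ∀ T, sepNum (fun x y => Real.sqrt (φ (D x y))) F ε T = sepNum D F σ T := by
        intro T
        unfold sepNum
        congr 1
        ext n
        constructor
        · rintro ⟨E, hE, hs⟩
          refine ⟨E, hE, fun x hx y hy hne => ?_⟩
          rw [lt_dynDist_iff D F hσpos.le]
          obtain ⟨t, ht, h⟩ := (lt_dynDist_iff _ F hε.le T x y).1 (hs x hx y hy hne)
          exact ⟨t, ht, (hiff _ (hD0 _ _)).1 h⟩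
        · rintro ⟨E, hE, hs⟩
          refine ⟨E, hE, fun x hx y hy hne => ?_⟩
          rw [lt_dynDist_iff _ F hε.le]
          obtain ⟨t, ht, h⟩ := (lt_dynDist_iff D F hσpos.le T x y).1 (hs x hx y hy hne)
          exact ⟨t, ht, (hiff _ (hD0 _ _)).2 h⟩
      simp only [heq]
      exact hL
    · have heq : ∀ T, spanNum (fun x y => Real.sqrt (φ (D x y))) F ε T = spanNum D F σ T := by
        intro T
        have key : ∀ x y, dynDist (fun x y => Real.sqrt (φ (D x y))) F T x y ≤ ε ↔
            dynDist D F T x y ≤ σ := by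
          intro x y
          rw [dynDist_le_iff _ F hε.le, dynDist_le_iff D F hσpos.le]
          constructor
          · intro h t ht
            have := h t ht
            rw [← not_lt, hiff _ (hD0 _ _), not_lt] at this
            exact this
          · intro h t ht
            have := h t ht
            rw [← not_lt, hiff _ (hD0 _ _), not_lt]
            exact this
        unfold spanNum
        simp only [key]
      simp only [heq]
      exact hL'

end Pool.Agent.Helper18.WeissJ
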